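import Mathlib

/-!
# Purely exponential equations and single congruences (MP_b7b898_nt): definitions

For primes `p i`, signs `e i` (`i < k`) and exponents `x i`, `expSum p e x` is
`∑ i, e i * p i ^ x i`. The data `(p, e)` is reducible to a congruence when there is a modulus
`M ≥ 1` such that for all exponents `x` the sum is zero if and only if it is divisible by `M`.
-/

set_option autoImplicit false

namespace Pool.Agent.H899EX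

/-- The left-hand side of the equation `(E)`. -/
def expSum {k : ℕ} (p : Fin k → ℕ) (e : Fin k → ℤ) (x : Fin k → ℕ) : ℤ :=
  ∑ i, e i * (p i : ℤ) ^ x i

/-- The `p i` are primes and the `e i` are signs. -/
def IsData {k : ℕ} (p : Fin k → ℕ) (e : Fin k → ℤ) : Prop :=
  (∀ i, (p i).Prime) ∧ ∀ i, e i = 1 ∨ e i = -1

/-- For some modulus `M ≥ 1` the equation and the congruence modulo `M` have the same solutions
in nonnegative integers. -/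
def Reducible {k : ℕ} (p : Fin k → ℕ) (e : Fin k → ℤ) : Prop :=
  ∃ M : ℕ, 1 ≤ M ∧ ∀ x : Fin k → ℕ, expSum p e x = 0 ↔ (M : ℤ) ∣ expSum p e x

/-! ### Statements proved in the `T…` files -/

/-- A sum of `k` powers of `q` is never divisible by a suitable modulus. -/
def S_A : Prop :=
  ∀ q k : ℕ, 2 ≤ q → 1 ≤ k → ∃ M : ℕ, 1 ≤ M ∧ ∀ x : Fin k → ℕ, ¬ M ∣ ∑ i, q ^ x i

/-- Existence of solutions for a single prime. -/
def S_B : Prop :=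
  ∀ (k q : ℕ) (e : Fin k → ℤ), 2 ≤ q → (∀ i, e i = 1 ∨ e i = -1) →
    (∃ i, e i = 1) → (∃ i, e i = -1) → ((q : ℤ) - 1 ∣ ∑ i, e i) →
    ∃ x : Fin k → ℕ, ∑ i, e i * (q : ℤ) ^ x i = 0

/-- A vanishing subsum of a single prime is an obstruction. -/
def S_C : Prop :=
  ∀ (k : ℕ) (p : Fin k → ℕ) (e : Fin k → ℤ) (I : Finset (Fin k)), IsData p e → I.Nonempty →
    (∀ i ∈ I, ∀ j ∈ I, p i = p j) →
    (∃ x : Fin k → ℕ, ∑ i ∈ I, e i * (p i : ℤ) ^ x i = 0 ∧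
      ∑ i ∈ Iᶜ, e i * (p i : ℤ) ^ x i = 0) →
    ¬ Reducible p e

/-- If a congruence bounds the exponents, the data is reducible. -/
def S_F : Prop :=
  ∀ (k : ℕ) (p : Fin k → ℕ) (e : Fin k → ℤ), IsData p e →
    (∃ M B : ℕ, 1 ≤ M ∧ ∀ x : Fin k → ℕ, (M : ℤ) ∣ expSum p e x → ∀ i, x i < B) →
    Reducible p e

/-- The main step for three terms. -/
def S_D : Prop :=
  ∀ q : ℕ, q.Prime → q ≠ 2 → ∃ s t : ℕ, ∀ e₁ e₂ e₃ : ℤ, (e₁ = 1 ∨ e₁ = -1) →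
    (e₂ = 1 ∨ e₂ = -1) → (e₃ = 1 ∨ e₃ = -1) → ∀ y z : ℕ, 1 ≤ y →
    ((2 : ℤ) ^ s * (q : ℤ) ^ t * 15 ∣ e₁ + e₂ * 2 ^ y + e₃ * (q : ℤ) ^ z) → y < s ∧ z < t

/-- Two primes, three terms. -/
def S_E : Prop :=
  ∀ (p : Fin 3 → ℕ) (e : Fin 3 → ℤ), IsData p e → ¬ Function.Injective p →
    (∃ i, p i = 2) → (∃ i, p i ≠ 2) → Reducible p e

/-- The equation `3^a = 1 + 2^b + 2^c`. -/
def S_G : Prop :=
  ∀ a b c : ℕ, ((679466880 : ℤ) ∣ 3 ^ a - 1 - 2 ^ b - 2 ^ c) → (3 : ℤ) ^ a = 1 + 2 ^ b + 2 ^ c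

/-- The data `(3,2,2,2; +,-,-,-)`. -/
def S_H : Prop :=
  ∀ a b c d : ℕ, ((679466880 : ℤ) ∣ 3 ^ a - 2 ^ b - 2 ^ c - 2 ^ d) →
    (3 : ℤ) ^ a = 2 ^ b + 2 ^ c + 2 ^ d

end Pool.Agent.H899EX
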