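/- EX job B (MP_b7b898_nt, owner helper899): purely exponential equations and single congruences. Definitions and statements: Pool/Agent/H899EX/Defs.lean on origin/main.
Setup: cd /workdir/pool; git -C outputs/live fetch -q origin; git -C outputs/live archive origin/main Pool/Agent/H899EX | tar x; lake build Pool.Agent.H899EX.Defs
(1 minute; only Mathlib is imported). Hypotheses S_... are proved elsewhere. Do not change any statement; if one is false or unusable tell
helper899 at once. Auxiliary lemmas before the target, in the namespace Pool.Agent.H899EX.B_aux. If you cannot finish in 45 min hand back what you have.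
DELIVER: paste the whole file (with imports) as result: UPDATE jobs SET status='done', result=..., done_at=now() (or land it as
Pool/Agent/H899EX/TB.lean with the target inside, result='landed').

PROOF. Lemma: for a finset S of Fin k with S.card = 1 + (q-1) j there is x : Fin k -> N with sum_{i in S} q^(x i) = q^j (naturals). Induction on j: j = 0: one element, exponent 0. Step: S = T u U disjoint,
T.card = 1 + (q-1) j, U.card = q-1 (Finset.exists_subset_card_eq / exists_smaller_set); take x of T, and j on U: q^j + (q-1) q^j = q^(j+1).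
Main: P = {i | e i = 1}, N = {i | e i = -1}, a = P.card >= 1, b = N.card >= 1, sum e = a - b. WLOG a <= b (otherwise replace e by -e). b - a = (q-1) j. Choose i0 in P and S subset N with
S.card = 1 + (b - a) <= b. Put x i0 = j, x = 0 on P minus i0 and on N minus S, and x from the lemma on S. Then the sum over P is (a-1) + q^j, the sum over N is q^j + (b - 1 - (b-a)) = q^j + (a-1).
-/
import Pool.Agent.H899EX.Defs

set_option autoImplicit false

namespace Pool.Agent.H899EX

namespace B_aux

theorem pow_split {k : ℕ} (r j : ℕ) : ∀ S : Finset (Fin k), S.card = 1 + r * j →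
    ∃ x : Fin k → ℕ, ∑ i ∈ S, (r + 1) ^ x i = (r + 1) ^ j := by
  classical
  induction j with
  | zero =>
    intro S hS
    refine ⟨fun _ => 0, ?_⟩
    simp [hS]
  | succ j ih =>
    intro S hS
    obtain ⟨T, hTS, hT⟩ := Finset.exists_subset_card_eq (s := S) (n := 1 + r * j) (by
      rw [hS, Nat.mul_succ]; omega)
    obtain ⟨x, hx⟩ := ih T hT
    have hU : (S \ T).card = r := by
      rw [Finset.card_sdiff_of_subset hTS, hS, hT, Nat.mul_succ]
      omega
    refine ⟨fun i => if i ∈ T then x i else j, ?_⟩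
    rw [← Finset.sum_sdiff hTS]
    have h1 : ∑ i ∈ S \ T, (r + 1) ^ (if i ∈ T then x i else j) = r * (r + 1) ^ j := by
      rw [Finset.sum_congr rfl (g := fun _ => (r + 1) ^ j) (fun i hi => by
        rw [if_neg (Finset.mem_sdiff.1 hi).2]), Finset.sum_const, hU, smul_eq_mul]
    have h2 : ∑ i ∈ T, (r + 1) ^ (if i ∈ T then x i else j) = (r + 1) ^ j := by
      rw [← hx]
      exact Finset.sum_congr rfl (fun i hi => by rw [if_pos hi])
    rw [h1, h2, pow_succ]
    ring

theorem balance {k : ℕ} (r j : ℕ) (P N : Finset (Fin k)) (hd : Disjoint P N) (hP : P.Nonempty)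
    (h : N.card = P.card + r * j) :
    ∃ x : Fin k → ℕ, ∑ i ∈ P, (r + 1) ^ x i = ∑ i ∈ N, (r + 1) ^ x i := by
  classical
  have hPc : 1 ≤ P.card := Finset.card_pos.2 hP
  obtain ⟨i0, hi0⟩ := hP
  obtain ⟨S, hSN, hS⟩ := Finset.exists_subset_card_eq (s := N) (n := 1 + r * j) (by omega)
  obtain ⟨x, hx⟩ := pow_split r j S hS
  have hPN : ∀ i ∈ P, i ∉ N := fun i hi hi' => Finset.disjoint_left.1 hd hi hi'
  refine ⟨fun i => if i = i0 then j else if i ∈ S then x i else 0, ?_⟩
  have h1 : ∑ i ∈ P, (r + 1) ^ (if i = i0 then j else if i ∈ S then x i else 0) =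
      (r + 1) ^ j + (P.card - 1) := by
    rw [← Finset.add_sum_erase P _ hi0, if_pos rfl]
    congr 1
    rw [Finset.sum_congr rfl (g := fun _ => 1) (fun i hi => by
      have h2 := Finset.mem_erase.1 hi
      rw [if_neg h2.1, if_neg (fun h3 => hPN i h2.2 (hSN h3)), pow_zero]), Finset.sum_const,
      Finset.card_erase_of_mem hi0, smul_eq_mul, mul_one]
  have h2 : ∑ i ∈ N, (r + 1) ^ (if i = i0 then j else if i ∈ S then x i else 0) =
      (r + 1) ^ j + (P.card - 1) := by
    rw [← Finset.sum_sdiff hSN]
    have h3 : ∑ i ∈ N \ S, (r + 1) ^ (if i = i0 then j else if i ∈ S then x i else 0) =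
        P.card - 1 := by
      rw [Finset.sum_congr rfl (g := fun _ => 1) (fun i hi => by
        have h4 := Finset.mem_sdiff.1 hi
        rw [if_neg (fun h5 : i = i0 => hPN i (by rw [h5]; exact hi0) h4.1), if_neg h4.2, pow_zero]), Finset.sum_const,
        Finset.card_sdiff_of_subset hSN, smul_eq_mul, mul_one]
      omega
    have h4 : ∑ i ∈ S, (r + 1) ^ (if i = i0 then j else if i ∈ S then x i else 0) =
        (r + 1) ^ j := by
      rw [← hx]
      refine Finset.sum_congr rfl (fun i hi => ?_)
      rw [if_neg (fun h5 : i = i0 => hPN i (by rw [h5]; exact hi0) (hSN hi)), if_pos hi]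
    rw [h3, h4, add_comm]
  rw [h1, h2]

theorem split {k : ℕ} (e : Fin k → ℤ) (he : ∀ i, e i = 1 ∨ e i = -1) (f : Fin k → ℤ) :
    ∑ i, e i * f i = ∑ i ∈ Finset.univ.filter (fun i => e i = 1), f i -
      ∑ i ∈ Finset.univ.filter (fun i => e i = -1), f i := by
  rw [Finset.sum_filter, Finset.sum_filter, ← Finset.sum_sub_distrib]
  refine Finset.sum_congr rfl (fun i _ => ?_)
  rcases he i with h | h
  · rw [h, if_pos rfl, if_neg (by norm_num)]
    ring
  · rw [h, if_neg (by norm_num), if_pos rfl]
    ring

end B_aux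

-- BEGIN TARGET
theorem t_B : S_B := by
  intro k q e hq he hpos hneg hdiv
  classical
  obtain ⟨r, rfl⟩ : ∃ r, q = r + 1 := ⟨q - 1, by omega⟩
  set P : Finset (Fin k) := Finset.univ.filter (fun i => e i = 1) with hPdef
  set N : Finset (Fin k) := Finset.univ.filter (fun i => e i = -1) with hNdef
  have hPne : P.Nonempty := by
    obtain ⟨i, hi⟩ := hpos
    exact ⟨i, Finset.mem_filter.2 ⟨Finset.mem_univ _, hi⟩⟩
  have hNne : N.Nonempty := by
    obtain ⟨i, hi⟩ := hneg
    exact ⟨i, Finset.mem_filter.2 ⟨Finset.mem_univ _, hi⟩⟩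
  have hd : Disjoint P N := by
    rw [Finset.disjoint_left]
    intro i hi hi'
    have h1 := (Finset.mem_filter.1 hi).2
    have h2 := (Finset.mem_filter.1 hi').2
    rw [h1] at h2
    norm_num at h2
  have hsum : ∑ i, e i = (P.card : ℤ) - N.card := by
    have h1 := B_aux.split e he (fun _ => 1)
    simp only [mul_one, Finset.sum_const, nsmul_eq_mul] at h1
    exact h1
  have hr : (((r + 1 : ℕ) : ℤ) - 1) = (r : ℤ) := by push_cast; ring
  rw [hsum, hr] at hdiv
  have key : ∃ x : Fin k → ℕ, ∑ i ∈ P, (r + 1) ^ x i = ∑ i ∈ N, (r + 1) ^ x i := by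
    rcases le_total P.card N.card with h | h
    · have h2 : r ∣ N.card - P.card := by
        have h3 : (r : ℤ) ∣ ((N.card - P.card : ℕ) : ℤ) := by
          rw [Nat.cast_sub h]
          exact (dvd_neg.2 hdiv).trans (by rw [neg_sub])
        exact_mod_cast h3
      obtain ⟨j, hj⟩ := h2
      exact B_aux.balance r j P N hd hPne (by omega)
    · have h2 : r ∣ P.card - N.card := by
        have h3 : (r : ℤ) ∣ ((P.card - N.card : ℕ) : ℤ) := by
          rw [Nat.cast_sub h]
          exact hdiv
        exact_mod_cast h3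
      obtain ⟨j, hj⟩ := h2
      obtain ⟨x, hx⟩ := B_aux.balance r j N P hd.symm hNne (by omega)
      exact ⟨x, hx.symm⟩
  obtain ⟨x, hx⟩ := key
  refine ⟨x, ?_⟩
  rw [B_aux.split e he (fun i => (((r + 1 : ℕ) : ℤ)) ^ x i)]
  have h5 : ((∑ i ∈ P, (r + 1) ^ x i : ℕ) : ℤ) = ((∑ i ∈ N, (r + 1) ^ x i : ℕ) : ℤ) := by rw [hx]
  push_cast at h5 ⊢
  rw [h5, sub_self]
-- END TARGET

end Pool.Agent.H899EX
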