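/- EX job C (MP_b7b898_nt, owner helper899): purely exponential equations and single congruences. Definitions and statements: Pool/Agent/H899EX/Defs.lean on origin/main.
Setup: cd /workdir/pool; git -C outputs/live fetch -q origin; git -C outputs/live archive origin/main Pool/Agent/H899EX | tar x; lake build Pool.Agent.H899EX.Defs
(1 minute; only Mathlib is imported). Hypotheses S_... are proved elsewhere. Do not change any statement; if one is false or unusable tell
helper899 at once. Auxiliary lemmas before the target, in the namespace Pool.Agent.H899EX.C_aux. If you cannot finish in 45 min hand back what you have.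
DELIVER: paste the whole file (with imports) as result: UPDATE jobs SET status='done', result=..., done_at=now() (or land it as
Pool/Agent/H899EX/TC.lean with the target inside, result='landed').

PROOF. Suppose M >= 1 works. Let i0 in I, q = p i0 (prime; p i = q on I). M = q^s * m with q not dividing m (s = M.factorization q, or Nat.exists_eq_pow_mul_and_not_dvd), L = Nat.totient m >= 1,
q^L = 1 mod m (Nat.ModEq.pow_totient). Given x with the two vanishing sums define x' i = x i + s for i in I, i != i0; x' i0 = x i0 + s + L; x' i = x i outside I.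
expSum p e x' = q^s * (sum over I, = 0) + (sum over the complement, = 0) + e i0 * q^(x i0 + s) * (q^L - 1). This is divisible by q^s m = M and it is not 0 (q >= 2, L >= 1), contradicting the equivalence.
-/
import Pool.Agent.H899EX.Defs

set_option autoImplicit false

namespace Pool.Agent.H899EX

-- BEGIN TARGET
theorem t_C : S_C := by
  classical
  rintro k p e I hd hne hI ⟨x, h1, h2⟩ ⟨M, hM, hred⟩
  obtain ⟨i0, hi0⟩ := hne
  have hq : (p i0).Prime := hd.1 i0
  obtain ⟨s, m, hqm, hMs⟩ := Nat.exists_eq_pow_mul_and_not_dvd (n := M) (by omega) (p i0) hq.ne_one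
  have hm0 : 0 < m := by
    rcases Nat.eq_zero_or_pos m with h | h
    · rw [h, mul_zero] at hMs; omega
    · exact h
  have hcop : Nat.Coprime (p i0) m := (Nat.Prime.coprime_iff_not_dvd hq).2 hqm
  have hL : 0 < Nat.totient m := Nat.totient_pos.2 hm0
  have hmod : (p i0) ^ Nat.totient m ≡ 1 [MOD m] := Nat.ModEq.pow_totient hcop
  have hdiv : (m : ℤ) ∣ (p i0 : ℤ) ^ Nat.totient m - 1 := by
    have h := (Nat.modEq_iff_dvd.1 hmod.symm)
    push_cast at h
    exact h
  set x' : Fin k → ℕ := fun i => if i ∈ I then (if i = i0 then x i + s + Nat.totient m else x i + s)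
    else x i with hx'
  have hval : expSum p e x' =
      e i0 * (p i0 : ℤ) ^ (x i0 + s) * ((p i0 : ℤ) ^ Nat.totient m - 1) := by
    unfold expSum
    rw [← Finset.sum_add_sum_compl I]
    have hc : ∑ i ∈ Iᶜ, e i * (p i : ℤ) ^ x' i = 0 := by
      rw [← h2]
      refine Finset.sum_congr rfl fun i hi => ?_
      have hi' : i ∉ I := Finset.mem_compl.1 hi
      simp only [hx', if_neg hi']
    have hin : ∑ i ∈ I, e i * (p i : ℤ) ^ x' i =
        ∑ i ∈ I, ((p i0 : ℤ) ^ s * (e i * (p i : ℤ) ^ x i) +
          (if i = i0 then e i0 * (p i0 : ℤ) ^ (x i0 + s) * ((p i0 : ℤ) ^ Nat.totient m - 1)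
            else 0)) := by
      refine Finset.sum_congr rfl fun i hi => ?_
      by_cases h : i = i0
      · subst h
        simp only [hx', if_pos hi, if_true]
        ring
      · have hp : p i = p i0 := hI i hi i0 hi0
        simp only [hx', if_pos hi, if_neg h, hp]
        ring
    rw [hc, hin, Finset.sum_add_distrib, ← Finset.mul_sum, h1, Finset.sum_ite_eq' I i0, if_pos hi0]
    ring
  have hdvd : (M : ℤ) ∣ expSum p e x' := by
    rw [hval]
    obtain ⟨c, hc⟩ := hdiv
    refine ⟨e i0 * (p i0 : ℤ) ^ x i0 * c, ?_⟩
    rw [hc, hMs]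
    push_cast
    ring
  have hzero := (hred x').2 hdvd
  rw [hval] at hzero
  have hp0 : (p i0 : ℤ) ≠ 0 := by exact_mod_cast hq.ne_zero
  have he0 : e i0 ≠ 0 := by
    rcases hd.2 i0 with h | h <;> rw [h] <;> norm_num
  have hq1 : (p i0 : ℤ) ^ Nat.totient m - 1 ≠ 0 := by
    have h3 : 1 < (p i0) ^ Nat.totient m := Nat.one_lt_pow hL.ne' hq.one_lt
    have h4 : (1 : ℤ) < (p i0 : ℤ) ^ Nat.totient m := by exact_mod_cast h3
    omega
  exact (mul_ne_zero (mul_ne_zero he0 (pow_ne_zero _ hp0)) hq1) hzero
-- END TARGET

end Pool.Agent.H899EX
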