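-- t_D proved without sorry (file TD.lean, aux lemmas in D_aux), standard axioms, compiles in 8 s
import Pool.Agent.H899EX.Defs

set_option autoImplicit false

namespace Pool.Agent.H899EX

namespace D_aux

theorem sum_odd (a : ℤ) (ha : Odd a) (m : ℕ) :
    Odd (∑ i ∈ Finset.range (2 * m + 1), a ^ i) := by
  induction m with
  | zero => simp
  | succ m ih =>
    have h : 2 * (m + 1) + 1 = (2 * m + 1) + 1 + 1 := by ring
    rw [h, Finset.sum_range_succ, Finset.sum_range_succ]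
    have h1 : Odd (a ^ (2 * m + 1)) := ha.pow
    have h2 : Odd (a ^ (2 * m + 1 + 1)) := ha.pow
    rw [add_assoc]
    exact ih.add_even (h1.add_odd h2)

theorem odd_exp (s z : ℕ) (a : ℤ) (ha : Odd a) (hz : Odd z) (h : (2 : ℤ) ^ s ∣ a ^ z - 1) :
    (2 : ℤ) ^ s ∣ a - 1 := by
  obtain ⟨m, rfl⟩ := hz
  rw [← geom_sum_mul] at h
  obtain ⟨c, hc⟩ := sum_odd a ha m
  have hcop : IsCoprime (2 : ℤ) (∑ i ∈ Finset.range (2 * m + 1), a ^ i) :=
    ⟨-c, 1, by rw [hc]; ring⟩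
  exact (hcop.pow_left (m := s)).dvd_of_dvd_mul_left h

theorem pow_even_mod8 (a : ℤ) (ha : Odd a) (w : ℕ) : (8 : ℤ) ∣ a ^ (2 * w) - 1 := by
  rw [pow_mul]
  have h8 : (8 : ℤ) ∣ a ^ 2 - 1 := by
    obtain ⟨m, rfl⟩ := ha
    obtain ⟨c, hc⟩ := Int.even_mul_succ_self m
    refine ⟨c, ?_⟩
    have : (2 * m + 1) ^ 2 - 1 = 4 * (m * (m + 1)) := by ring
    rw [this, hc]; ring
  have := sub_dvd_pow_sub_pow (a ^ 2) 1 w
  rw [one_pow] at this
  exact h8.trans this

theorem not_dvd_two_pow (p : ℕ) (hp : p.Prime) (hp2 : p ≠ 2) (y : ℕ) : ¬ (p : ℤ) ∣ 2 ^ y := by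
  intro h
  have h1 : p ∣ 2 ^ y := by exact_mod_cast h
  have h2 := hp.dvd_of_dvd_pow h1
  exact hp2 ((Nat.prime_dvd_prime_iff_eq hp Nat.prime_two).mp h2)

theorem small (s : ℕ) (a : ℤ) (h : (2 : ℤ) ^ s ∣ a) (h0 : 0 < a) (h1 : a < 2 ^ s) : False := by
  have := Int.le_of_dvd h0 h
  linarith

end D_aux

-- BEGIN TARGET
theorem t_D : S_D := by
  intro q hq hq2
  have hq3 : 3 ≤ q := by
    have := hq.two_le
    omega
  have hqodd : Odd (q : ℤ) := by
    have h := hq.odd_of_ne_two hq2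
    exact_mod_cast h
  obtain ⟨s, hs⟩ : ∃ s, s = q ^ 2 + 3 := ⟨_, rfl⟩
  have hs3 : 3 ≤ s := by omega
  have hbig : (q : ℤ) ^ 2 + 3 < 2 ^ s := by
    have h : s < 2 ^ s := Nat.lt_two_pow_self
    have h' : ((q ^ 2 + 3 : ℕ) : ℤ) < ((2 ^ s : ℕ) : ℤ) := by
      rw [← hs]; exact_mod_cast h
    push_cast at h'
    exact h'
  have hqz : (3 : ℤ) ≤ q := by exact_mod_cast hq3
  have hqq : (q : ℤ) ≤ (q : ℤ) ^ 2 := by nlinarith
  refine ⟨s, 2 ^ s + 1, ?_⟩
  intro e₁ e₂ e₃ he1 he2 he3 y z hy hdvd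
  have hd2 : (2 : ℤ) ^ s ∣ e₁ + e₂ * 2 ^ y + e₃ * (q : ℤ) ^ z :=
    (Dvd.intro _ (by ring : (2 : ℤ) ^ s * ((q : ℤ) ^ (2 ^ s + 1) * 15) =
      (2 : ℤ) ^ s * (q : ℤ) ^ (2 ^ s + 1) * 15)).trans hdvd
  have hdq : (q : ℤ) ^ (2 ^ s + 1) ∣ e₁ + e₂ * 2 ^ y + e₃ * (q : ℤ) ^ z :=
    (Dvd.intro _ (by ring : (q : ℤ) ^ (2 ^ s + 1) * ((2 : ℤ) ^ s * 15) =
      (2 : ℤ) ^ s * (q : ℤ) ^ (2 ^ s + 1) * 15)).trans hdvd
  have hd3 : (3 : ℤ) ∣ e₁ + e₂ * 2 ^ y + e₃ * (q : ℤ) ^ z :=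
    (Dvd.intro _ (by ring : (3 : ℤ) * ((2 : ℤ) ^ s * (q : ℤ) ^ (2 ^ s + 1) * 5) =
      (2 : ℤ) ^ s * (q : ℤ) ^ (2 ^ s + 1) * 15)).trans hdvd
  have hd5 : (5 : ℤ) ∣ e₁ + e₂ * 2 ^ y + e₃ * (q : ℤ) ^ z :=
    (Dvd.intro _ (by ring : (5 : ℤ) * ((2 : ℤ) ^ s * (q : ℤ) ^ (2 ^ s + 1) * 3) =
      (2 : ℤ) ^ s * (q : ℤ) ^ (2 ^ s + 1) * 15)).trans hdvd
  -- first part
  have hys : y < s := by
    by_contra hcon
    push Not at hcon
    have h1 : (2 : ℤ) ^ s ∣ e₁ + e₃ * (q : ℤ) ^ z := by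
      have h2 : (2 : ℤ) ^ s ∣ e₂ * 2 ^ y := (pow_dvd_pow 2 hcon).mul_left _
      have h3 := dvd_sub hd2 h2
      have h4 : e₁ + e₂ * 2 ^ y + e₃ * (q : ℤ) ^ z - e₂ * 2 ^ y = e₁ + e₃ * (q : ℤ) ^ z := by ring
      rwa [h4] at h3
    by_cases he : e₃ = e₁
    · -- q^z = -1
      have h5 : (2 : ℤ) ^ s ∣ (q : ℤ) ^ z + 1 := by
        rcases he1 with h | h
        · rw [he, h] at h1
          have : (q : ℤ) ^ z + 1 = 1 + 1 * (q : ℤ) ^ z := by ring
          rw [this]; exact h1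
        · rw [he, h] at h1
          have : (q : ℤ) ^ z + 1 = -(-1 + -1 * (q : ℤ) ^ z) := by ring
          rw [this]; exact (dvd_neg).mpr h1
      rcases Nat.even_or_odd z with hz | hz
      · obtain ⟨w, hw⟩ := hz
        have h6 := D_aux.pow_even_mod8 (q : ℤ) hqodd w
        have h7 : (8 : ℤ) ∣ (q : ℤ) ^ z + 1 := by
          have : (8 : ℤ) = 2 ^ 3 := by norm_num
          rw [this]
          exact (pow_dvd_pow 2 hs3).trans h5
        have hzw : z = 2 * w := by omega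
        rw [← hzw] at h6
        have h8 := dvd_sub h7 h6
        have h9 : (q : ℤ) ^ z + 1 - ((q : ℤ) ^ z - 1) = 2 := by ring
        rw [h9] at h8
        norm_num at h8
      · have h6 : (2 : ℤ) ^ s ∣ (-(q : ℤ)) ^ z - 1 := by
          rw [hz.neg_pow]
          have : -(q : ℤ) ^ z - 1 = -((q : ℤ) ^ z + 1) := by ring
          rw [this]; exact (dvd_neg).mpr h5
        have h7 := D_aux.odd_exp s z (-(q : ℤ)) hqodd.neg hz h6
        have h8 : (2 : ℤ) ^ s ∣ (q : ℤ) + 1 := by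
          have : (q : ℤ) + 1 = -(-(q : ℤ) - 1) := by ring
          rw [this]; exact (dvd_neg).mpr h7
        exact D_aux.small s _ h8 (by linarith) (by linarith)
    · -- q^z = 1
      have he' : e₃ = -e₁ := by
        rcases he1 with h | h <;> rcases he3 with h' | h'
        · exact absurd (h'.trans h.symm) he
        · rw [h, h']
        · rw [h, h']; norm_num
        · exact absurd (h'.trans h.symm) he
      have h5 : (2 : ℤ) ^ s ∣ (q : ℤ) ^ z - 1 := by
        rcases he1 with h | h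
        · rw [he', h] at h1
          have : (q : ℤ) ^ z - 1 = -(1 + -1 * (q : ℤ) ^ z) := by ring
          rw [this]; exact (dvd_neg).mpr h1
        · rw [he', h] at h1
          have : (q : ℤ) ^ z - 1 = -1 + -(-1) * (q : ℤ) ^ z := by ring
          rw [this]; exact h1
      rcases Nat.even_or_odd z with hz | hz
      · obtain ⟨w, hw⟩ := hz
        have hzw : z = 2 * w := by omega
        rcases Nat.even_or_odd w with hw2 | hw2
        · obtain ⟨v, hv⟩ := hw2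
          have hzv : z = 4 * v := by omega
          have hS : e₁ + e₂ * 2 ^ y + e₃ * (q : ℤ) ^ z =
              e₂ * 2 ^ y - e₁ * ((q : ℤ) ^ z - 1) := by rw [he']; ring
          have hfin : ∀ r : ℕ, r.Prime → r ≠ 2 → (r : ℤ) ∣ e₁ + e₂ * 2 ^ y + e₃ * (q : ℤ) ^ z →
              (r : ℤ) ∣ (q : ℤ) ^ z - 1 → False := by
            intro r hr hr2 hr3 hr4
            rw [hS] at hr3
            have h6 : (r : ℤ) ∣ e₂ * 2 ^ y := by
              have h7 := dvd_add hr3 (hr4.mul_left e₁)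
              have h8 : e₂ * 2 ^ y - e₁ * ((q : ℤ) ^ z - 1) + e₁ * ((q : ℤ) ^ z - 1) =
                e₂ * 2 ^ y := by ring
              rwa [h8] at h7
            have h7 : (r : ℤ) ∣ 2 ^ y := by
              rcases he2 with h | h
              · rwa [h, one_mul] at h6
              · rw [h, neg_one_mul] at h6
                exact (dvd_neg).mp h6
            exact D_aux.not_dvd_two_pow r hr hr2 y h7
          by_cases hq' : q = 3
          · apply hfin 5 (by norm_num) (by norm_num) (by exact_mod_cast hd5)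
            rw [hzv, pow_mul, hq']
            have := sub_dvd_pow_sub_pow (((3 : ℕ) : ℤ) ^ 4) 1 v
            rw [one_pow] at this
            refine Dvd.dvd.trans ?_ this
            norm_num
          · apply hfin 3 (by norm_num) (by norm_num) (by exact_mod_cast hd3)
            rw [hzw, pow_mul]
            have := sub_dvd_pow_sub_pow ((q : ℤ) ^ 2) 1 w
            rw [one_pow] at this
            refine Dvd.dvd.trans ?_ this
            have h3q : ¬ 3 ∣ q := by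
              intro h
              exact hq' ((Nat.prime_dvd_prime_iff_eq (by norm_num) hq).mp h).symm
            have h3q' : (q : ℤ) % 3 = 1 ∨ (q : ℤ) % 3 = 2 := by omega
            have h10 : ((q : ℤ) ^ 2 - 1) % 3 = 0 := by
              rcases h3q' with h | h
              · rw [Int.sub_emod, pow_two, Int.mul_emod, h]; norm_num
              · rw [Int.sub_emod, pow_two, Int.mul_emod, h]; norm_num
            exact Int.dvd_of_emod_eq_zero h10
        · rw [hzw, pow_mul] at h5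
          have h6 := D_aux.odd_exp s w ((q : ℤ) ^ 2) hqodd.pow hw2 h5
          exact D_aux.small s _ h6 (by nlinarith) (by linarith)
      · have h6 := D_aux.odd_exp s z (q : ℤ) hqodd hz h5
        exact D_aux.small s _ h6 (by linarith) (by linarith)
  refine ⟨hys, ?_⟩
  by_contra hcon
  push Not at hcon
  have h1 : (q : ℤ) ^ (2 ^ s + 1) ∣ e₁ + e₂ * 2 ^ y := by
    have h2 : (q : ℤ) ^ (2 ^ s + 1) ∣ e₃ * (q : ℤ) ^ z := (pow_dvd_pow _ hcon).mul_left _
    have h3 := dvd_sub hdq h2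
    have h4 : e₁ + e₂ * 2 ^ y + e₃ * (q : ℤ) ^ z - e₃ * (q : ℤ) ^ z = e₁ + e₂ * 2 ^ y := by ring
    rwa [h4] at h3
  have h5 : (2 : ℤ) ^ y < 2 ^ s := pow_lt_pow_right₀ (by norm_num) hys
  have h6 : (2 : ℤ) ^ s + 1 < (q : ℤ) ^ (2 ^ s + 1) := by
    have h7 : 2 ^ s + 1 < q ^ (2 ^ s + 1) := Nat.lt_pow_self (by omega)
    exact_mod_cast h7
  have h2y : (2 : ℤ) ≤ 2 ^ y := by
    calc (2 : ℤ) = 2 ^ 1 := by norm_num
      _ ≤ 2 ^ y := pow_le_pow_right₀ (by norm_num) hy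
  have h8 : e₁ + e₂ * 2 ^ y ≠ 0 := by
    rcases he1 with h | h <;> rcases he2 with h' | h' <;> rw [h, h'] <;> intro h9 <;> linarith
  have h9 : |e₁ + e₂ * 2 ^ y| < (q : ℤ) ^ (2 ^ s + 1) := by
    rw [abs_lt]
    rcases he1 with h | h <;> rcases he2 with h' | h' <;> rw [h, h'] <;> constructor <;> linarith
  exact h8 (Int.eq_zero_of_abs_lt_dvd h1 h9)
-- END TARGET

end Pool.Agent.H899EX
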