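import Pool.Agent.H899EX.Defs

set_option autoImplicit false

namespace Pool.Agent.H899EX

namespace E_aux

theorem sign_odd {e : ℤ} (h : e = 1 ∨ e = -1) : Odd e := by
  rcases h with rfl | rfl
  · exact odd_one
  · exact odd_one.neg

theorem q_odd {q : ℕ} (hq : q.Prime) (h2 : q ≠ 2) : Odd (q : ℤ) :=
  (Int.odd_coe_nat q).2 (hq.odd_of_ne_two h2)

theorem two_pow_even {y : ℕ} (hy : 1 ≤ y) : Even ((2 : ℤ) ^ y) := by
  obtain ⟨n, rfl⟩ := Nat.exists_eq_add_of_le' hy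
  rw [pow_succ]
  exact even_two.mul_left _

/-- case (A), after symmetry -/
theorem caseA {q s t M : ℕ} (hq : q.Prime) (h2 : q ≠ 2)
    (hst : ∀ e₁ e₂ e₃ : ℤ, (e₁ = 1 ∨ e₁ = -1) →
      (e₂ = 1 ∨ e₂ = -1) → (e₃ = 1 ∨ e₃ = -1) → ∀ y z : ℕ, 1 ≤ y →
      ((2 : ℤ) ^ s * (q : ℤ) ^ t * 15 ∣ e₁ + e₂ * 2 ^ y + e₃ * (q : ℤ) ^ z) → y < s ∧ z < t)
    (hM2 : (2 : ℤ) ∣ M) (hM : (2 : ℤ) ^ s * (q : ℤ) ^ t * 15 ∣ M)
    {e₁ e₂ e₃ : ℤ} (h₁ : e₁ = 1 ∨ e₁ = -1) (h₂ : e₂ = 1 ∨ e₂ = -1) (h₃ : e₃ = 1 ∨ e₃ = -1)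
    {x y z : ℕ} (h : (M : ℤ) ∣ e₁ * 2 ^ x + e₂ * 2 ^ y + e₃ * (q : ℤ) ^ z) :
    x < max s t + 1 ∧ y < max s t + 1 ∧ z < max s t + 1 := by
  have ho : Odd (e₃ * (q : ℤ) ^ z) := (sign_odd h₃).mul ((q_odd hq h2).pow)
  have he : Even (e₁ * 2 ^ x + e₂ * 2 ^ y + e₃ * (q : ℤ) ^ z) :=
    even_iff_two_dvd.2 (hM2.trans h)
  have hs := le_max_left s t
  have ht := le_max_right s t
  rcases Nat.eq_zero_or_pos x with hx | hx <;> rcases Nat.eq_zero_or_pos y with hy | hy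
  · exfalso
    subst hx
    subst hy
    rw [pow_zero, mul_one, mul_one] at he
    have h4 : Even (e₁ + e₂) := (sign_odd h₁).add_odd (sign_odd h₂)
    exact (Int.not_even_iff_odd.2 (h4.add_odd ho)) he
  · subst hx
    rw [pow_zero, mul_one] at h
    have := hst e₁ e₂ e₃ h₁ h₂ h₃ y z hy (hM.trans h)
    omega
  · subst hy
    rw [pow_zero, mul_one, add_comm (e₁ * 2 ^ x) e₂] at h
    have := hst e₂ e₁ e₃ h₂ h₁ h₃ x z hx (hM.trans h)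
    omega
  · exfalso
    have h4 : Even (e₁ * 2 ^ x + e₂ * 2 ^ y) :=
      ((two_pow_even hx).mul_left _).add ((two_pow_even hy).mul_left _)
    exact (Int.not_even_iff_odd.2 (h4.add_odd ho)) he

/-- case (B), after symmetry -/
theorem caseB1 {q s t M : ℕ} (hq : q.Prime) (h2 : q ≠ 2)
    (hst : ∀ e₁ e₂ e₃ : ℤ, (e₁ = 1 ∨ e₁ = -1) →
      (e₂ = 1 ∨ e₂ = -1) → (e₃ = 1 ∨ e₃ = -1) → ∀ y z : ℕ, 1 ≤ y →
      ((2 : ℤ) ^ s * (q : ℤ) ^ t * 15 ∣ e₁ + e₂ * 2 ^ y + e₃ * (q : ℤ) ^ z) → y < s ∧ z < t)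
    (hM2 : (2 : ℤ) ∣ M) (hM : (2 : ℤ) ^ s * (q : ℤ) ^ t * 15 ∣ M)
    {e₁ e₂ e₃ : ℤ} (h₁ : e₁ = 1 ∨ e₁ = -1) (h₂ : e₂ = 1 ∨ e₂ = -1) (h₃ : e₃ = 1 ∨ e₃ = -1)
    {y z : ℕ} (h : (M : ℤ) ∣ e₁ + e₂ * (q : ℤ) ^ y + e₃ * 2 ^ z) :
    y < max s t + 1 ∧ z < max s t + 1 := by
  have hs := le_max_left s t
  have ht := le_max_right s t
  rcases Nat.eq_zero_or_pos z with hz | hz
  · exfalso
    subst hz
    rw [pow_zero, mul_one] at h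
    have he : Even (e₁ + e₂ * (q : ℤ) ^ y + e₃) := even_iff_two_dvd.2 (hM2.trans h)
    have ho : Odd (e₂ * (q : ℤ) ^ y) := (sign_odd h₂).mul ((q_odd hq h2).pow)
    exact (Int.not_even_iff_odd.2 (((sign_odd h₁).add_odd ho).add_odd (sign_odd h₃))) he
  · have h4 : e₁ + e₂ * (q : ℤ) ^ y + e₃ * 2 ^ z = e₁ + e₃ * 2 ^ z + e₂ * (q : ℤ) ^ y := by ring
    rw [h4] at h
    have := hst e₁ e₃ e₂ h₁ h₃ h₂ z y hz (hM.trans h)
    omega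

theorem caseB {q s t M : ℕ} (hq : q.Prime) (h2 : q ≠ 2)
    (hst : ∀ e₁ e₂ e₃ : ℤ, (e₁ = 1 ∨ e₁ = -1) →
      (e₂ = 1 ∨ e₂ = -1) → (e₃ = 1 ∨ e₃ = -1) → ∀ y z : ℕ, 1 ≤ y →
      ((2 : ℤ) ^ s * (q : ℤ) ^ t * 15 ∣ e₁ + e₂ * 2 ^ y + e₃ * (q : ℤ) ^ z) → y < s ∧ z < t)
    (hM2 : (2 : ℤ) ∣ M) (hMq : (q : ℤ) ∣ M) (hM : (2 : ℤ) ^ s * (q : ℤ) ^ t * 15 ∣ M)
    {e₁ e₂ e₃ : ℤ} (h₁ : e₁ = 1 ∨ e₁ = -1) (h₂ : e₂ = 1 ∨ e₂ = -1) (h₃ : e₃ = 1 ∨ e₃ = -1)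
    {x y z : ℕ} (h : (M : ℤ) ∣ e₁ * (q : ℤ) ^ x + e₂ * (q : ℤ) ^ y + e₃ * 2 ^ z) :
    x < max s t + 1 ∧ y < max s t + 1 ∧ z < max s t + 1 := by
  rcases Nat.eq_zero_or_pos x with hx | hx
  · subst hx
    rw [pow_zero, mul_one] at h
    have := caseB1 hq h2 hst hM2 hM h₁ h₂ h₃ h
    omega
  rcases Nat.eq_zero_or_pos y with hy | hy
  · subst hy
    rw [pow_zero, mul_one, add_comm (e₁ * (q : ℤ) ^ x) e₂] at h
    have := caseB1 hq h2 hst hM2 hM h₂ h₁ h₃ h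
    omega
  exfalso
  have h4 : (q : ℤ) ∣ e₁ * (q : ℤ) ^ x + e₂ * (q : ℤ) ^ y :=
    dvd_add ((dvd_pow_self _ hx.ne').mul_left _) ((dvd_pow_self _ hy.ne').mul_left _)
  have h5 : (q : ℤ) ∣ e₃ * 2 ^ z := (dvd_add_right h4).1 (hMq.trans h)
  have h6 : (q : ℤ) ∣ 2 ^ z := by
    rcases h₃ with rfl | rfl
    · rwa [one_mul] at h5
    · rwa [neg_one_mul, dvd_neg] at h5
  have h7 : q ∣ 2 ^ z := by exact_mod_cast h6
  exact h2 ((Nat.prime_dvd_prime_iff_eq hq Nat.prime_two).1 (hq.dvd_of_dvd_pow h7))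

/-- both cases -/
theorem core (hD : S_D) {a b : ℕ} (ha : a.Prime) (hb : b.Prime) (hab : a ≠ b)
    (h2 : a = 2 ∨ b = 2) : ∃ M B : ℕ, 1 ≤ M ∧ ∀ e₁ e₂ e₃ : ℤ, (e₁ = 1 ∨ e₁ = -1) →
      (e₂ = 1 ∨ e₂ = -1) → (e₃ = 1 ∨ e₃ = -1) → ∀ x y z : ℕ,
      ((M : ℤ) ∣ e₁ * (a : ℤ) ^ x + e₂ * (a : ℤ) ^ y + e₃ * (b : ℤ) ^ z) →
      x < B ∧ y < B ∧ z < B := by
  rcases h2 with rfl | rfl
  · obtain ⟨s, t, hst⟩ := hD b hb (Ne.symm hab)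
    refine ⟨2 ^ s * b ^ t * 15 * (2 * b), max s t + 1, ?_, ?_⟩
    · have := hb.pos
      exact Nat.one_le_iff_ne_zero.2 (by positivity)
    · intro e₁ e₂ e₃ h₁ h₂ h₃ x y z h
      refine caseA hb (Ne.symm hab) hst ?_ ?_ h₁ h₂ h₃ h
      · push_cast
        exact (Dvd.intro _ rfl : (2 : ℤ) ∣ 2 * b).mul_left _
      · push_cast
        exact Dvd.intro _ rfl
  · obtain ⟨s, t, hst⟩ := hD a ha hab
    refine ⟨2 ^ s * a ^ t * 15 * (2 * a), max s t + 1, ?_, ?_⟩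
    · have := ha.pos
      exact Nat.one_le_iff_ne_zero.2 (by positivity)
    · intro e₁ e₂ e₃ h₁ h₂ h₃ x y z h
      refine caseB ha hab hst ?_ ?_ ?_ h₁ h₂ h₃ h
      · push_cast
        exact (Dvd.intro _ rfl : (2 : ℤ) ∣ 2 * a).mul_left _
      · push_cast
        exact (Dvd.intro_left _ rfl : (a : ℤ) ∣ 2 * a).mul_left _
      · push_cast
        exact Dvd.intro _ rfl

/-- a bound for one arrangement of the indices -/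
theorem arr (hD : S_D) (hF : S_F) {p : Fin 3 → ℕ} {e : Fin 3 → ℤ} (h : IsData p e)
    (i j k : Fin 3) (hsum : ∀ f : Fin 3 → ℤ, ∑ l, f l = f i + f j + f k)
    (hall : ∀ l : Fin 3, l = i ∨ l = j ∨ l = k)
    (hij : p i = p j) (hik : p i ≠ p k) (h2 : p i = 2 ∨ p k = 2) : Reducible p e := by
  obtain ⟨M, B, hM, hMB⟩ := core hD (h.1 i) (h.1 k) hik h2
  refine hF 3 p e h ⟨M, B, hM, fun x hx l => ?_⟩
  unfold expSum at hx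
  rw [hsum, ← hij] at hx
  obtain ⟨h3, h4, h5⟩ := hMB (e i) (e j) (e k) (h.2 i) (h.2 j) (h.2 k) (x i) (x j) (x k) hx
  rcases hall l with rfl | rfl | rfl
  · exact h3
  · exact h4
  · exact h5

end E_aux


-- BEGIN TARGET
theorem t_E (hD : S_D) (hF : S_F) : S_E := by
  intro p e h hinj ⟨i0, hi0⟩ ⟨i1, hi1⟩
  have key : ∀ i j k : Fin 3, (∀ f : Fin 3 → ℤ, ∑ l, f l = f i + f j + f k) →
      (∀ l : Fin 3, l = i ∨ l = j ∨ l = k) → p i = p j → Reducible p e := by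
    intro i j k hsum hall hij
    have hik : p i ≠ p k := by
      intro hik
      have hc : ∀ l, p l = p i := by
        intro l
        rcases hall l with rfl | rfl | rfl
        · rfl
        · exact hij.symm
        · exact hik.symm
      exact hi1 ((hc i1).trans ((hc i0).symm.trans hi0))
    have h2 : p i = 2 ∨ p k = 2 := by
      rcases hall i0 with rfl | rfl | rfl
      · exact Or.inl hi0
      · exact Or.inl (hij.trans hi0)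
      · exact Or.inr hi0
    exact E_aux.arr hD hF h i j k hsum hall hij hik h2
  rw [Function.Injective] at hinj
  push Not at hinj
  obtain ⟨a, b, hab, hne⟩ := hinj
  have s1 : ∀ f : Fin 3 → ℤ, ∑ l, f l = f 0 + f 1 + f 2 := fun f => Fin.sum_univ_three f
  have s2 : ∀ f : Fin 3 → ℤ, ∑ l, f l = f 0 + f 2 + f 1 := fun f => by
    rw [Fin.sum_univ_three]; ring
  have s3 : ∀ f : Fin 3 → ℤ, ∑ l, f l = f 1 + f 2 + f 0 := fun f => by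
    rw [Fin.sum_univ_three]; ring
  have a1 : ∀ l : Fin 3, l = 0 ∨ l = 1 ∨ l = 2 := by decide
  have a2 : ∀ l : Fin 3, l = 0 ∨ l = 2 ∨ l = 1 := by decide
  have a3 : ∀ l : Fin 3, l = 1 ∨ l = 2 ∨ l = 0 := by decide
  have hcase : p 0 = p 1 ∨ p 0 = p 2 ∨ p 1 = p 2 := by
    fin_cases a <;> fin_cases b <;> simp_all
  rcases hcase with hc | hc | hc
  · exact key 0 1 2 s1 a1 hc
  · exact key 0 2 1 s2 a2 hc
  · exact key 1 2 0 s3 a3 hc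
-- END TARGET

end Pool.Agent.H899EX
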