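/- EX job F (MP_b7b898_nt, owner helper899): purely exponential equations and single congruences. Definitions and statements: Pool/Agent/H899EX/Defs.lean on origin/main.
Setup: cd /workdir/pool; git -C outputs/live fetch -q origin; git -C outputs/live archive origin/main Pool/Agent/H899EX | tar x; lake build Pool.Agent.H899EX.Defs
(1 minute; only Mathlib is imported). Hypotheses S_... are proved elsewhere. Do not change any statement; if one is false or unusable tell
helper899 at once. Auxiliary lemmas before the target, in the namespace Pool.Agent.H899EX.F_aux. If you cannot finish in 45 min hand back what you have.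
DELIVER: paste the whole file (with imports) as result: UPDATE jobs SET status='done', result=..., done_at=now() (or land it as
Pool/Agent/H899EX/TF.lean with the target inside, result='landed').

PROOF. Let M, B be given. N := 1 + sum_i (p i)^B, M' := M * N >= 1. If expSum = 0 it is divisible by M'. Conversely if M' | expSum then M | expSum, so x i < B for all i, |expSum| <= sum_i (p i)^(x i) <= sum (p i)^B < N <= M'
(p i >= 2 prime, |e i| = 1), so expSum = 0 (Int.eq_zero_of_abs_lt_dvd or Int.eq_zero_of_dvd_of_natAbs_lt_natAbs).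
-/
import Pool.Agent.H899EX.Defs

set_option autoImplicit false

namespace Pool.Agent.H899EX

theorem F_aux.bound {k : ℕ} {p : Fin k → ℕ} {e : Fin k → ℤ} (h : IsData p e) {B : ℕ}
    (x : Fin k → ℕ) (hx : ∀ i, x i < B) :
    |expSum p e x| ≤ ∑ i, (p i : ℤ) ^ B := by
  unfold expSum
  refine (Finset.abs_sum_le_sum_abs _ _).trans (Finset.sum_le_sum fun i _ => ?_)
  have h1 : |e i| = 1 := by
    rcases h.2 i with h2 | h2 <;> rw [h2] <;> simp
  have h3 : (1 : ℤ) ≤ (p i : ℤ) := by exact_mod_cast (h.1 i).one_lt.le
  rw [abs_mul, h1, one_mul, abs_of_nonneg (by positivity)]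
  exact pow_le_pow_right₀ h3 (hx i).le

-- BEGIN TARGET
theorem t_F : S_F := by
  intro k p e h hMB
  obtain ⟨M, B, hM, hB⟩ := hMB
  refine ⟨M * (1 + ∑ i, p i ^ B), Nat.mul_pos hM (by omega), fun x => ⟨fun h0 => ?_, fun hd => ?_⟩⟩
  · rw [h0]; exact dvd_zero _
  · have h1 : (M : ℤ) ∣ expSum p e x := by
      refine dvd_trans ?_ hd
      push_cast
      exact dvd_mul_right _ _
    have h2 := F_aux.bound h x (hB x h1)
    refine Int.eq_zero_of_abs_lt_dvd hd ?_
    push_cast
    have h3 : (0 : ℤ) ≤ ∑ i, (p i : ℤ) ^ B := Finset.sum_nonneg fun i _ => by positivity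
    have h4 : (1 : ℤ) ≤ M := by exact_mod_cast hM
    nlinarith
-- END TARGET

end Pool.Agent.H899EX
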