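import Pool.Agent.H899EX.Defs

/-!
# `3^a = 1 + 2^b + 2^c` is equivalent to a congruence modulo `2^7 * 3^5 * 5 * 17 * 257`
-/

set_option autoImplicit false

namespace Pool.Agent.H899EX

namespace G_aux

theorem emod_pow_mod (g m T n : ℕ) (h : g ^ T % m = 1 % m) : g ^ n % m = g ^ (n % T) % m := by
  conv_lhs => rw [← Nat.div_add_mod n T]
  rw [pow_add, pow_mul, Nat.mul_mod, Nat.pow_mod, h, ← Nat.pow_mod, one_pow]
  rw [← Nat.mul_mod, one_mul]

/-- Reduction of an integer divisibility to natural numbers. -/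
theorem modEq_of_dvd {N m a b c : ℕ} (hm : m ∣ N)
    (h : (N : ℤ) ∣ 3 ^ a - 1 - 2 ^ b - 2 ^ c) : 3 ^ a % m = (1 + 2 ^ b + 2 ^ c) % m := by
  have h1 : (m : ℤ) ∣ 3 ^ a - 1 - 2 ^ b - 2 ^ c := (Int.natCast_dvd_natCast.2 hm).trans h
  have h2 : (1 + 2 ^ b + 2 ^ c) ≡ 3 ^ a [MOD m] := by
    rw [Nat.modEq_iff_dvd]
    push_cast
    have : (3 : ℤ) ^ a - (1 + 2 ^ b + 2 ^ c) = 3 ^ a - 1 - 2 ^ b - 2 ^ c := by ring
    rw [this]; exact h1
  exact h2.symm

theorem eq_of_small {a b c : ℕ} (ha : a ≤ 4) (hb : b ≤ 6) (hc : c ≤ 6)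
    (h : ((679466880 : ℕ) : ℤ) ∣ 3 ^ a - 1 - 2 ^ b - 2 ^ c) :
    (3 : ℤ) ^ a = 1 + 2 ^ b + 2 ^ c := by
  have h3 : (3 : ℤ) ^ a ≤ 3 ^ 4 := pow_le_pow_right₀ (by norm_num) ha
  have hb' : (2 : ℤ) ^ b ≤ 2 ^ 6 := pow_le_pow_right₀ (by norm_num) hb
  have hc' : (2 : ℤ) ^ c ≤ 2 ^ 6 := pow_le_pow_right₀ (by norm_num) hc
  have h3p : (0 : ℤ) < 3 ^ a := by positivity
  have hbp : (0 : ℤ) < 2 ^ b := by positivity
  have hcp : (0 : ℤ) < 2 ^ c := by positivity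
  have := Int.eq_zero_of_abs_lt_dvd h (by rw [abs_lt]; constructor <;> push_cast <;> linarith)
  linarith

/-- `a ≤ 4` when the right-hand side is small. -/
theorem a_le {a b c : ℕ} (hb : b ≤ 6) (hc : c ≤ 6)
    (h : 3 ^ a % 243 = (1 + 2 ^ b + 2 ^ c) % 243) : a ≤ 4 := by
  by_contra hlt
  have h5 : 243 ∣ 3 ^ a := by
    have : (243 : ℕ) = 3 ^ 5 := by norm_num
    rw [this]; exact pow_dvd_pow 3 (by omega)
  have h0 : 3 ^ a % 243 = 0 := Nat.mod_eq_zero_of_dvd h5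
  have hb' : (2 : ℕ) ^ b ≤ 2 ^ 6 := Nat.pow_le_pow_right (by norm_num) hb
  have hc' : (2 : ℕ) ^ c ≤ 2 ^ 6 := Nat.pow_le_pow_right (by norm_num) hc
  have hlt : 1 + 2 ^ b + 2 ^ c < 243 := by
    norm_num at hb' hc'
    linarith
  rw [h0, Nat.mod_eq_of_lt hlt] at h
  have hp : 0 < 1 + 2 ^ b + 2 ^ c := by positivity
  rw [← h] at hp
  exact lt_irrefl 0 hp

theorem three_ndvd {a b v : ℕ} (ha : 1 ≤ a) (hv : v % 3 = 2)
    (h : 3 ^ a % 3 = (1 + 2 ^ b + v) % 3) : False := by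
  have h0 : 3 ^ a % 3 = 0 := Nat.mod_eq_zero_of_dvd (dvd_pow_self 3 (by omega))
  have h2 : (2 ^ b) % 3 ≠ 0 := by
    intro hh
    have := (Nat.prime_three.dvd_of_dvd_pow (Nat.dvd_of_mod_eq_zero hh))
    omega
  omega

theorem k5_17 : ∀ x < 8, ∀ y < 8, ¬ ((2 ^ x + 2 ^ y) % 5 = 0 ∧ (2 ^ x + 2 ^ y) % 17 = 0) := by
  decide +kernel

theorem k257 : ∀ i < 8, ∀ y < 16,
    3 ^ (20 + 32 * i) % 257 ≠ (17 + 2 ^ y) % 257 := by
  decide +kernel

theorem k64 : ∀ r < 16, 3 ^ r % 64 = 1 → r = 0 := by decide +kernel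

theorem k3 : ∀ r < 32, 3 ^ r % 128 = 3 → r = 1 := by decide +kernel

theorem k5 : ∀ r < 32, 3 ^ r % 128 ≠ 5 := by decide +kernel

theorem k9 : ∀ r < 32, 3 ^ r % 128 = 9 → r = 2 := by decide +kernel

theorem k17 : ∀ r < 32, 3 ^ r % 128 = 17 → r = 20 := by decide +kernel

theorem k33 : ∀ r < 32, 3 ^ r % 128 = 33 → r ≠ 0 := by decide +kernel

theorem step (m T B C b' c' : ℕ) (h : T % m = (1 + B + C) % m) (h1 : T % m = 1 % m)
    (hb : B % m = b' % m) (hc : C % m = c' % m) : (b' + c') % m = 0 := by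
  have h2 : 1 + (B + C) ≡ 1 + 0 [MOD m] := by
    have : 1 + B + C ≡ 1 [MOD m] := by
      show (1 + B + C) % m = 1 % m
      rw [← h, h1]
    rw [add_zero, ← add_assoc]; exact this
  have h3 : B + C ≡ 0 [MOD m] := Nat.ModEq.add_left_cancel' 1 h2
  have h4 : b' + c' ≡ 0 [MOD m] :=
    (Nat.ModEq.add (show b' ≡ B [MOD m] from hb.symm) (show c' ≡ C [MOD m] from hc.symm)).trans h3
  simpa [Nat.ModEq] using h4

theorem step2 (m T B b' v w : ℕ) (h : T % m = (1 + B + v) % m) (hb : B % m = b' % m)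
    (hw : w = 1 + v) : T % m = (w + b') % m := by
  subst hw
  rw [h]
  have : 1 + B + v ≡ 1 + v + b' [MOD m] := by
    have h1 : 1 + v + B ≡ 1 + v + b' [MOD m] := Nat.ModEq.add_left (1 + v) hb
    have h2 : 1 + B + v = 1 + v + B := by ring
    rw [h2]; exact h1
  exact this

/-- The main case distinction, with `c ≤ b`. -/
theorem main_aux {a b c : ℕ}
    (m2 : 3 ^ a % 2 = (1 + 2 ^ b + 2 ^ c) % 2)
    (m3 : 3 ^ a % 3 = (1 + 2 ^ b + 2 ^ c) % 3)
    (m128 : 3 ^ a % 128 = (1 + 2 ^ b + 2 ^ c) % 128)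
    (m64 : 3 ^ a % 64 = (1 + 2 ^ b + 2 ^ c) % 64)
    (m5 : 3 ^ a % 5 = (1 + 2 ^ b + 2 ^ c) % 5)
    (m17 : 3 ^ a % 17 = (1 + 2 ^ b + 2 ^ c) % 17)
    (m257 : 3 ^ a % 257 = (1 + 2 ^ b + 2 ^ c) % 257)
    (hb6 : ¬ b ≤ 6) : False := by
  push Not at hb6
  -- `b ≥ 7`
  have hb128 : 2 ^ b % 128 = 0 := Nat.mod_eq_zero_of_dvd (by
    have : (128 : ℕ) = 2 ^ 7 := by norm_num
    rw [this]; exact pow_dvd_pow 2 (by omega))
  have hodd : 3 ^ a % 2 = 1 := by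
    rw [Nat.pow_mod]; simp
  have hb2 : 2 ^ b % 2 = 0 := by clear m3 m64 m5 m17 m257 m2 m128 hodd; omega
  have hc2 : 2 ^ c % 2 = 0 := by clear m3 m64 m5 m17 m257 m128 hb128; omega
  have hc1 : 1 ≤ c := by
    rcases Nat.eq_zero_or_pos c with rfl | h'
    · norm_num at hc2
    · exact h'
  -- `3^a` modulo 128 has period 32
  have e128 : 3 ^ a % 128 = 3 ^ (a % 32) % 128 := emod_pow_mod 3 128 32 a (by norm_num)
  have ha32 : a % 32 < 32 := Nat.mod_lt _ (by norm_num)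
  by_cases hc6 : 6 ≤ c
  · -- both large
    have hc64 : 2 ^ c % 64 = 0 := Nat.mod_eq_zero_of_dvd (by
      have : (64 : ℕ) = 2 ^ 6 := by norm_num
      rw [this]; exact pow_dvd_pow 2 hc6)
    have h64 : 3 ^ a % 64 = 1 := by clear m3 m5 m17 m257 m128 m2 hodd hb2 hc2 e128; omega
    have e64 : 3 ^ a % 64 = 3 ^ (a % 16) % 64 := emod_pow_mod 3 64 16 a (by norm_num)
    have ha16 : a % 16 < 16 := Nat.mod_lt _ (by norm_num)
    have h16 : a % 16 = 0 := k64 _ ha16 (by rw [← e64]; exact h64)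
    have e5 : 3 ^ a % 5 = 1 := by
      rw [emod_pow_mod 3 5 16 a (by norm_num), h16]; norm_num
    have e17 : 3 ^ a % 17 = 1 := by
      rw [emod_pow_mod 3 17 16 a (by norm_num), h16]; norm_num
    have hb5 := emod_pow_mod 2 5 8 b (by norm_num)
    have hc5 := emod_pow_mod 2 5 8 c (by norm_num)
    have hb17 := emod_pow_mod 2 17 8 b (by norm_num)
    have hc17 := emod_pow_mod 2 17 8 c (by norm_num)
    refine k5_17 (b % 8) (Nat.mod_lt _ (by norm_num)) (c % 8) (Nat.mod_lt _ (by norm_num)) ⟨?_, ?_⟩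
    · exact step 5 _ _ _ _ _ m5 e5 hb5 hc5
    · exact step 17 _ _ _ _ _ m17 e17 hb17 hc17
  · push Not at hc6
    have key : 3 ^ (a % 32) % 128 = (1 + 2 ^ c) % 128 := by
      rw [← e128, m128]
      clear m3 m64 m5 m17 m257 m128 m2 hodd hb2 hc2 e128
      omega
    clear m2 m64 m5 m17 m128 hodd hb2 hc2 e128 hb128
    interval_cases c
    · -- c = 1
      have h128 : 3 ^ (a % 32) % 128 = 3 := by rw [key]; norm_num
      have := k3 _ ha32 h128
      exact three_ndvd (by clear m3 m257 key h128; omega) (by norm_num) m3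
    · -- c = 2
      have h128 : 3 ^ (a % 32) % 128 = 5 := by rw [key]; norm_num
      exact k5 _ ha32 h128
    · -- c = 3
      have h128 : 3 ^ (a % 32) % 128 = 9 := by rw [key]; norm_num
      have := k9 _ ha32 h128
      exact three_ndvd (by clear m3 m257 key h128; omega) (by norm_num) m3
    · -- c = 4
      have h128 : 3 ^ (a % 32) % 128 = 17 := by rw [key]; norm_num
      have h20 : a % 32 = 20 := k17 _ ha32 h128
      have ea : 3 ^ a % 257 = 3 ^ (a % 256) % 257 := emod_pow_mod 3 257 256 a (by norm_num)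
      have eb : 2 ^ b % 257 = 2 ^ (b % 16) % 257 := emod_pow_mod 2 257 16 b (by norm_num)
      have hi : a % 256 = 20 + 32 * (a % 256 / 32) := by clear m3 m257 key h128 ea eb; omega
      refine k257 (a % 256 / 32) (by clear m3 m257 key h128 ea eb; omega) (b % 16)
        (Nat.mod_lt _ (by norm_num)) ?_
      rw [← hi, ← ea]
      exact step2 257 _ _ _ _ 17 m257 eb (by norm_num)
    · -- c = 5
      have h128 : 3 ^ (a % 32) % 128 = 33 := by rw [key]; norm_num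
      have : a % 32 ≠ 0 := k33 _ ha32 h128
      exact three_ndvd (by clear m3 m257 key h128; omega) (by norm_num) m3

theorem main {a b c : ℕ} (hcb : c ≤ b)
    (h : ((679466880 : ℕ) : ℤ) ∣ 3 ^ a - 1 - 2 ^ b - 2 ^ c) :
    (3 : ℤ) ^ a = 1 + 2 ^ b + 2 ^ c := by
  by_cases hb6 : b ≤ 6
  · have hc6 : c ≤ 6 := hcb.trans hb6
    exact eq_of_small (a_le hb6 hc6 (modEq_of_dvd (m := 243) (by norm_num) h)) hb6 hc6 h
  · exact (main_aux (modEq_of_dvd (by norm_num) h) (modEq_of_dvd (by norm_num) h)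
      (modEq_of_dvd (by norm_num) h) (modEq_of_dvd (by norm_num) h)
      (modEq_of_dvd (by norm_num) h) (modEq_of_dvd (by norm_num) h)
      (modEq_of_dvd (by norm_num) h) hb6).elim

end G_aux

theorem t_G : S_G := by
  intro a b c h
  rcases le_total c b with hcb | hbc
  · exact G_aux.main hcb (by exact_mod_cast h)
  · have := G_aux.main (a := a) (b := c) (c := b) hbc (by
      have h' : (3 : ℤ) ^ a - 1 - 2 ^ c - 2 ^ b = 3 ^ a - 1 - 2 ^ b - 2 ^ c := by ring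
      rw [h']; exact_mod_cast h)
    linarith

theorem t_H : S_H := by
  intro a b c d h
  have hodd : ¬ (2 : ℤ) ∣ 3 ^ a := by
    intro h2
    have := Int.prime_two.dvd_of_dvd_pow h2
    omega
  have key : b = 0 ∨ c = 0 ∨ d = 0 := by
    by_contra hne
    push Not at hne
    obtain ⟨hb, hc, hd⟩ := hne
    apply hodd
    have h2 : (2 : ℤ) ∣ 3 ^ a - 2 ^ b - 2 ^ c - 2 ^ d := dvd_trans (by norm_num) h
    have hb2 : (2 : ℤ) ∣ 2 ^ b := dvd_pow_self 2 hb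
    have hc2 : (2 : ℤ) ∣ 2 ^ c := dvd_pow_self 2 hc
    have hd2 : (2 : ℤ) ∣ 2 ^ d := dvd_pow_self 2 hd
    have := dvd_add (dvd_add (dvd_add h2 hb2) hc2) hd2
    have e : (3 : ℤ) ^ a - 2 ^ b - 2 ^ c - 2 ^ d + 2 ^ b + 2 ^ c + 2 ^ d = 3 ^ a := by ring
    rwa [e] at this
  rcases key with rfl | rfl | rfl
  · have := t_G a c d (by
      have e : (3 : ℤ) ^ a - 1 - 2 ^ c - 2 ^ d = 3 ^ a - 2 ^ 0 - 2 ^ c - 2 ^ d := by ring
      rw [e]; exact h)
    rw [this]; ring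
  · have := t_G a b d (by
      have e : (3 : ℤ) ^ a - 1 - 2 ^ b - 2 ^ d = 3 ^ a - 2 ^ b - 2 ^ 0 - 2 ^ d := by ring
      rw [e]; exact h)
    rw [this]; ring
  · have := t_G a b c (by
      have e : (3 : ℤ) ^ a - 1 - 2 ^ b - 2 ^ c = 3 ^ a - 2 ^ b - 2 ^ c - 2 ^ 0 := by ring
      rw [e]; exact h)
    rw [this]; ring

end Pool.Agent.H899EX
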