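import Pool.Agent.H899EX.TA
import Pool.Agent.H899EX.TB
import Pool.Agent.H899EX.TC
import Pool.Agent.H899EX.TD
import Pool.Agent.H899EX.TE
import Pool.Agent.H899EX.TF
import Pool.Agent.H899EX.TG

/-!
# Assembly for MP_b7b898_nt
-/

set_option autoImplicit false

namespace Pool.Agent.H899EX

namespace Main_aux

theorem dvd_expSum {k : ℕ} {p : Fin k → ℕ} {e : Fin k → ℤ} {d : ℤ}
    (hd : ∀ i, d ∣ (p i : ℤ) - 1) (x : Fin k → ℕ) :
    d ∣ expSum p e x ↔ d ∣ ∑ i, e i := by
  have h : d ∣ expSum p e x - ∑ i, e i := by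
    unfold expSum
    rw [← Finset.sum_sub_distrib]
    refine Finset.dvd_sum fun i _ => ?_
    have h1 : d ∣ (p i : ℤ) ^ x i - 1 := by
      have := sub_dvd_pow_sub_pow (p i : ℤ) 1 (x i)
      rw [one_pow] at this
      exact (hd i).trans this
    have e1 : e i * (p i : ℤ) ^ x i - e i = e i * ((p i : ℤ) ^ x i - 1) := by ring
    rw [e1]
    exact h1.mul_left _
  constructor
  · intro h2
    have := dvd_sub h2 h
    simpa using this
  · intro h2
    have := dvd_add h h2
    simpa using this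

/-- The criterion with a common divisor of the `p i - 1`. -/
theorem gcdCrit {k : ℕ} {p : Fin k → ℕ} {e : Fin k → ℤ} (hp : IsData p e)
    (h : ∃ d : ℤ, (∀ i, d ∣ (p i : ℤ) - 1) ∧ ¬ d ∣ ∑ i, e i) : Reducible p e := by
  obtain ⟨d, hd, hs⟩ := h
  have hd0 : d ≠ 0 := by
    rintro rfl
    apply hs
    have : IsEmpty (Fin k) := by
      refine ⟨fun i => ?_⟩
      have h1 := hd i
      rw [zero_dvd_iff] at h1
      have h2 := (hp.1 i).two_le
      have h3 : (2 : ℤ) ≤ (p i : ℤ) := by exact_mod_cast h2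
      linarith
    simp
  refine ⟨d.natAbs, by have := Int.natAbs_pos.2 hd0; omega, fun x => ?_⟩
  rw [Int.natAbs_dvd, dvd_expSum hd x]
  constructor
  · intro h0
    exact absurd ((dvd_expSum hd x).1 (h0 ▸ dvd_zero d)) hs
  · intro h0
    exact absurd h0 hs

theorem expSum_pos {k : ℕ} {p : Fin k → ℕ} {e : Fin k → ℤ} (hk : 1 ≤ k) (hp : IsData p e)
    (he : ∀ i, e i = 1) (x : Fin k → ℕ) : 0 < expSum p e x := by
  unfold expSum
  have : Nonempty (Fin k) := ⟨⟨0, hk⟩⟩
  refine Finset.sum_pos (fun i _ => ?_) Finset.univ_nonempty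
  rw [he i, one_mul]
  have : 0 < (p i : ℤ) := by exact_mod_cast (hp.1 i).pos
  positivity

theorem expSum_neg {k : ℕ} {p : Fin k → ℕ} {e : Fin k → ℤ} (hk : 1 ≤ k) (hp : IsData p e)
    (he : ∀ i, e i = -1) (x : Fin k → ℕ) : expSum p e x < 0 := by
  have h := expSum_pos (p := p) (e := fun _ => 1) hk ⟨hp.1, fun _ => Or.inl rfl⟩ (fun _ => rfl) x
  have h2 : expSum p e x = - expSum p (fun _ => 1) x := by
    unfold expSum
    rw [← Finset.sum_neg_distrib]
    refine Finset.sum_congr rfl fun i _ => ?_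
    rw [he i]; ring
  rw [h2]; linarith

/-- All signs equal, a single prime. -/
theorem oneSign {k q : ℕ} {p : Fin k → ℕ} {e : Fin k → ℤ} (hk : 1 ≤ k) (hp : IsData p e)
    (hq : ∀ i, p i = q) (s : ℤ) (hs : s = 1 ∨ s = -1) (he : ∀ i, e i = s) : Reducible p e := by
  have hq2 : 2 ≤ q := by
    have := (hp.1 ⟨0, hk⟩).two_le
    rwa [hq] at this
  obtain ⟨M, hM, h⟩ := t_A q k hq2 hk
  refine ⟨M, hM, fun x => ?_⟩
  have e1 : expSum p e x = s * ((∑ i, q ^ x i : ℕ) : ℤ) := by
    unfold expSum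
    push_cast
    rw [Finset.mul_sum]
    refine Finset.sum_congr rfl fun i _ => ?_
    rw [he i, hq i]
  have hne : expSum p e x ≠ 0 := by
    rcases hs with rfl | rfl
    · exact (expSum_pos hk hp he x).ne'
    · exact (expSum_neg hk hp he x).ne
  constructor
  · intro h0; exact absurd h0 hne
  · intro h0
    exfalso
    apply h x
    rw [e1] at h0
    rcases hs with rfl | rfl
    · rw [one_mul] at h0; exact_mod_cast h0
    · rw [neg_one_mul, dvd_neg] at h0; exact_mod_cast h0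

theorem single_sol {k q : ℕ} {p : Fin k → ℕ} {e : Fin k → ℤ} (hk : 1 ≤ k) (hp : IsData p e)
    (hq : ∀ i, p i = q) :
    (∃ x, expSum p e x = 0) ↔
      ((∃ i, e i = 1) ∧ (∃ i, e i = -1) ∧ ((q : ℤ) - 1 ∣ ∑ i, e i)) := by
  have hq2 : 2 ≤ q := by
    have := (hp.1 ⟨0, hk⟩).two_le
    rwa [hq] at this
  constructor
  · rintro ⟨x, hx⟩
    refine ⟨?_, ?_, ?_⟩
    · by_contra hno
      push Not at hno
      exact (expSum_neg hk hp (fun i => (hp.2 i).resolve_left (hno i)) x).ne hx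
    · by_contra hno
      push Not at hno
      exact (expSum_pos hk hp (fun i => (hp.2 i).resolve_right (hno i)) x).ne' hx
    · refine (dvd_expSum (p := p) (fun i => ?_) x).1 (hx ▸ dvd_zero _)
      rw [hq i]
  · rintro ⟨h1, h2, h3⟩
    obtain ⟨x, hx⟩ := t_B k q e hq2 hp.2 h1 h2 h3
    refine ⟨x, ?_⟩
    unfold expSum
    rw [← hx]
    exact Finset.sum_congr rfl fun i _ => by rw [hq i]

theorem single_red {k q : ℕ} {p : Fin k → ℕ} {e : Fin k → ℤ} (hk : 1 ≤ k) (hp : IsData p e)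
    (hq : ∀ i, p i = q) : Reducible p e ↔ ¬ ∃ x, expSum p e x = 0 := by
  constructor
  · rintro hr ⟨x, hx⟩
    have : Nonempty (Fin k) := ⟨⟨0, hk⟩⟩
    refine t_C k p e Finset.univ hp Finset.univ_nonempty (fun i _ j _ => by rw [hq i, hq j])
      ⟨x, hx, by simp⟩ hr
  · intro hno
    rw [single_sol hk hp hq] at hno
    by_cases h1 : ∃ i, e i = 1
    · by_cases h2 : ∃ i, e i = -1
      · refine gcdCrit hp ⟨(q : ℤ) - 1, fun i => by rw [hq i], fun h3 => hno ⟨h1, h2, h3⟩⟩
      · push Not at h2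
        exact oneSign hk hp hq 1 (Or.inl rfl) fun i => (hp.2 i).resolve_right (h2 i)
    · push Not at h1
      exact oneSign hk hp hq (-1) (Or.inr rfl) fun i => (hp.2 i).resolve_left (h1 i)

/-- Two terms. -/
theorem two_terms {p : Fin 2 → ℕ} {e : Fin 2 → ℤ} (hp : IsData p e) :
    Reducible p e ↔ ¬ (p 0 = p 1 ∧ e 0 = - e 1) := by
  by_cases h01 : p 0 = p 1
  · have hq : ∀ i, p i = p 0 := by
      intro i; fin_cases i
      · rfl
      · exact h01.symm
    rw [single_red (by norm_num) hp hq, single_sol (by norm_num) hp hq, not_iff_not]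
    constructor
    · rintro ⟨⟨i, hi⟩, ⟨j, hj⟩, -⟩
      refine ⟨h01, ?_⟩
      fin_cases i <;> fin_cases j <;> simp_all
    · rintro ⟨-, he⟩
      refine ⟨?_, ?_, ?_⟩
      · rcases hp.2 0 with h | h
        · exact ⟨0, h⟩
        · exact ⟨1, by linarith⟩
      · rcases hp.2 0 with h | h
        · exact ⟨1, by linarith⟩
        · exact ⟨0, h⟩
      · rw [Fin.sum_univ_two, he]; simp
  · refine iff_of_true ?_ (fun h => h01 h.1)
    refine t_F 2 p e hp ⟨p 0 * p 1, 1, Nat.mul_pos (hp.1 0).pos (hp.1 1).pos, fun x hx => ?_⟩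
    have hs : expSum p e x = e 0 * (p 0 : ℤ) ^ x 0 + e 1 * (p 1 : ℤ) ^ x 1 := by
      unfold expSum; rw [Fin.sum_univ_two]
    have key : ∀ (a b u v : ℕ) (s t : ℤ), a.Prime → b.Prime → a ≠ b → (t = 1 ∨ t = -1) →
        ((a : ℤ) ∣ s * (a : ℤ) ^ u + t * (b : ℤ) ^ v) → u = 0 := by
      intro a b u v s t ha hb hab ht hd
      by_contra hu
      have h1 : (a : ℤ) ∣ s * (a : ℤ) ^ u := (dvd_pow_self _ hu).mul_left _
      have h2 : (a : ℤ) ∣ t * (b : ℤ) ^ v := (dvd_add_right h1).1 hd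
      have h3 : (a : ℤ) ∣ (b : ℤ) ^ v := by
        rcases ht with rfl | rfl
        · simpa using h2
        · simpa using h2
      have h4 : a ∣ b ^ v := by exact_mod_cast h3
      have h5 := (Nat.prime_dvd_prime_iff_eq ha hb).1 (ha.dvd_of_dvd_pow h4)
      exact hab h5
    rw [hs] at hx
    have hx' : ((p 0 : ℤ) * (p 1 : ℤ)) ∣ e 0 * (p 0 : ℤ) ^ x 0 + e 1 * (p 1 : ℤ) ^ x 1 := by
      exact_mod_cast hx
    have hx0 : x 0 = 0 := key (p 0) (p 1) (x 0) (x 1) (e 0) (e 1) (hp.1 0) (hp.1 1) h01 (hp.2 1)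
      ((Dvd.intro _ rfl).trans hx')
    have hx1 : x 1 = 0 := key (p 1) (p 0) (x 1) (x 0) (e 1) (e 0) (hp.1 1) (hp.1 0)
      (Ne.symm h01) (hp.2 0) (by
        rw [add_comm]
        exact (Dvd.intro_left _ rfl).trans hx')
    intro i
    fin_cases i
    · simp [hx0]
    · simp [hx1]

/-- Three terms, unless the primes are distinct and one of them is `2`. -/
theorem three_terms {p : Fin 3 → ℕ} {e : Fin 3 → ℤ} (hp : IsData p e)
    (h : ¬ ((∃ i, p i = 2) ∧ Function.Injective p)) :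
    Reducible p e ↔ ¬ ((∀ i, p i = 2) ∧ (∃ i, e i = 1) ∧ ∃ i, e i = -1) := by
  by_cases h2 : ∃ i, p i = 2
  · have hinj : ¬ Function.Injective p := fun hi => h ⟨h2, hi⟩
    by_cases hall : ∀ i, p i = 2
    · rw [single_red (by norm_num) hp hall, single_sol (by norm_num) hp hall, not_iff_not]
      constructor
      · rintro ⟨a, b, -⟩; exact ⟨hall, a, b⟩
      · rintro ⟨-, a, b⟩; exact ⟨a, b, by norm_num⟩
    · refine iff_of_true ?_ (fun hh => hall hh.1)
      push Not at hall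
      exact t_E t_D t_F p e hp hinj h2 hall
  · refine iff_of_true ?_ (fun hh => h2 ⟨0, hh.1 0⟩)
    push Not at h2
    refine gcdCrit hp ⟨2, fun i => ?_, ?_⟩
    · have hodd := (hp.1 i).odd_of_ne_two (h2 i)
      obtain ⟨m, hm⟩ := hodd
      rw [hm]; push_cast; ring_nf; exact ⟨m, by ring⟩
    · rw [Fin.sum_univ_three]
      rcases hp.2 0 with h0 | h0 <;> rcases hp.2 1 with h1 | h1 <;> rcases hp.2 2 with h3 | h3 <;>
        rw [h0, h1, h3] <;> norm_num

/-- If a modulus exists, all solutions are bounded. -/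
theorem bounded_of_red {k : ℕ} {p : Fin k → ℕ} {e : Fin k → ℤ} (hp : IsData p e)
    (h : Reducible p e) : ∃ B : ℕ, ∀ x, expSum p e x = 0 → ∀ i, x i < B := by
  obtain ⟨M, hM, h⟩ := h
  refine ⟨M, fun x hx i => ?_⟩
  by_contra hlt
  push Not at hlt
  obtain ⟨a, m, hm, hMe⟩ := Nat.exists_eq_pow_mul_and_not_dvd (n := M) (by omega) (p i)
    (hp.1 i).ne_one
  have ham : a ≤ x i := by
    have h1 : a < (p i) ^ a := Nat.lt_pow_self (hp.1 i).one_lt
    have h2 : (p i) ^ a ≤ M := by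
      rw [hMe]
      refine Nat.le_mul_of_pos_right _ (Nat.pos_of_ne_zero ?_)
      rintro rfl
      exact hm (dvd_zero _)
    omega
  have hmpos : 0 < m := Nat.pos_of_ne_zero (by rintro rfl; exact hm (dvd_zero _))
  have hcop : Nat.Coprime (p i) m := ((hp.1 i).coprime_iff_not_dvd).2 hm
  have hL : 0 < Nat.totient m := Nat.totient_pos.2 hmpos
  have hpow : (m : ℤ) ∣ (p i : ℤ) ^ Nat.totient m - 1 := by
    have := (Nat.modEq_iff_dvd.1 (Nat.ModEq.pow_totient hcop).symm)
    push_cast at this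
    exact this
  set x' := Function.update x i (x i + Nat.totient m) with hx'
  have hdiff : expSum p e x' - expSum p e x
      = e i * ((p i : ℤ) ^ x i * ((p i : ℤ) ^ Nat.totient m - 1)) := by
    unfold expSum
    rw [← Finset.sum_sub_distrib, Finset.sum_eq_single i]
    · rw [hx', Function.update_self, pow_add]; ring
    · intro j _ hj
      rw [hx', Function.update_of_ne hj, sub_self]
    · intro hi; exact absurd (Finset.mem_univ i) hi
  have hdvd : (M : ℤ) ∣ expSum p e x' := by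
    have h1 : (M : ℤ) ∣ e i * ((p i : ℤ) ^ x i * ((p i : ℤ) ^ Nat.totient m - 1)) := by
      refine Dvd.dvd.mul_left ?_ _
      rw [hMe]
      push_cast
      exact mul_dvd_mul (pow_dvd_pow _ ham) hpow
    rw [← hdiff, hx, sub_zero] at h1
    exact h1
  have h0 := (h x').2 hdvd
  rw [h0, hx] at hdiff
  have hne : e i * ((p i : ℤ) ^ x i * ((p i : ℤ) ^ Nat.totient m - 1)) ≠ 0 := by
    have h2 : (2 : ℤ) ≤ (p i : ℤ) := by exact_mod_cast (hp.1 i).two_le
    have h3 : (1 : ℤ) < (p i : ℤ) ^ Nat.totient m := one_lt_pow₀ (by linarith) hL.ne'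
    refine mul_ne_zero ?_ (mul_ne_zero (by positivity) (by linarith))
    rcases hp.2 i with h | h <;> rw [h] <;> norm_num
  exact hne (by rw [← hdiff]; ring)

theorem finite_of_red {k : ℕ} {p : Fin k → ℕ} {e : Fin k → ℤ} (hp : IsData p e)
    (h : Reducible p e) : {x : Fin k → ℕ | expSum p e x = 0}.Finite := by
  obtain ⟨B, hB⟩ := bounded_of_red hp h
  refine (Set.finite_Iic (fun _ : Fin k => B)).subset ?_
  intro x hx
  rw [Set.mem_Iic, Pi.le_def]
  exact fun i => (hB x hx i).le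

/-- A single prime: one solution gives infinitely many. -/
theorem single_finite {k q : ℕ} {p : Fin k → ℕ} {e : Fin k → ℤ} (hk : 1 ≤ k)
    (hp : IsData p e) (hq : ∀ i, p i = q) :
    Reducible p e ↔ {x : Fin k → ℕ | expSum p e x = 0}.Finite := by
  refine ⟨finite_of_red hp, fun hf => ?_⟩
  rw [single_red hk hp hq]
  rintro ⟨x, hx⟩
  have hinf : {x : Fin k → ℕ | expSum p e x = 0}.Infinite := by
    refine Set.infinite_of_injective_forall_mem (f := fun n : ℕ => fun i => x i + n) ?_ ?_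
    · intro a b hab
      have := congrFun hab ⟨0, hk⟩
      simpa using this
    · intro n
      show expSum p e _ = 0
      have : expSum p e (fun i => x i + n) = (q : ℤ) ^ n * expSum p e x := by
        unfold expSum
        rw [Finset.mul_sum]
        refine Finset.sum_congr rfl fun i _ => ?_
        rw [hq i, pow_add]; ring
      rw [this, hx, mul_zero]
  exact hinf hf

theorem two_finite {p : Fin 2 → ℕ} {e : Fin 2 → ℤ} (hp : IsData p e) :
    Reducible p e ↔ {x : Fin 2 → ℕ | expSum p e x = 0}.Finite := by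
  by_cases h01 : p 0 = p 1
  · refine single_finite (q := p 0) (by norm_num) hp fun i => ?_
    fin_cases i
    · rfl
    · exact h01.symm
  · exact ⟨finite_of_red hp, fun _ => (two_terms hp).2 fun h => h01 h.1⟩

theorem three_finite {p : Fin 3 → ℕ} {e : Fin 3 → ℤ} (hp : IsData p e)
    (h : ¬ ((∃ i, p i = 2) ∧ Function.Injective p)) :
    Reducible p e ↔ {x : Fin 3 → ℕ | expSum p e x = 0}.Finite := by
  by_cases hall : ∀ i, p i = 2
  · exact single_finite (by norm_num) hp hall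
  · exact ⟨finite_of_red hp, fun _ => (three_terms hp h).2 fun hh => hall hh.1⟩

theorem modEq_iff (a b c : ℕ) :
    3 ^ a = 1 + 2 ^ b + 2 ^ c ↔ 3 ^ a ≡ 1 + 2 ^ b + 2 ^ c [MOD 679466880] := by
  constructor
  · intro h; rw [h]
  · intro h
    have h1 := Nat.modEq_iff_dvd.1 h.symm
    have h2 := t_G a b c (by
      have e1 : (3 : ℤ) ^ a - 1 - 2 ^ b - 2 ^ c = ((3 ^ a : ℕ) : ℤ) - ((1 + 2 ^ b + 2 ^ c : ℕ) : ℤ) := by
        push_cast; ring
      rw [e1]; exact_mod_cast h1)
    exact_mod_cast h2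

/-- The explicit obstruction: a single prime `q`, both signs, and `q - 1` divides the sum of
the signs. -/
theorem criterion {k : ℕ} {p : Fin k → ℕ} {e : Fin k → ℤ} (hk : 1 ≤ k) (hp : IsData p e)
    (h : (∀ i j, p i = p j) ∨ (k ≤ 3 ∧ ¬ (k = 3 ∧ (∃ i, p i = 2) ∧ Function.Injective p))) :
    (Reducible p e ↔ {x : Fin k → ℕ | expSum p e x = 0}.Finite) ∧
    (Reducible p e ↔ ¬ ∃ q : ℕ, (∀ i, p i = q) ∧ (∃ i, e i = 1) ∧ (∃ i, e i = -1) ∧
      ((q : ℤ) - 1 ∣ ∑ i, e i)) := by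
  by_cases hall : ∀ i j, p i = p j
  · have hq : ∀ i, p i = p ⟨0, hk⟩ := fun i => hall i _
    refine ⟨single_finite hk hp hq, ?_⟩
    rw [single_red hk hp hq, single_sol hk hp hq, not_iff_not]
    constructor
    · rintro ⟨a, b, c⟩; exact ⟨_, hq, a, b, c⟩
    · rintro ⟨q, hq', a, b, c⟩
      refine ⟨a, b, ?_⟩
      rw [hq' ⟨0, hk⟩]; exact c
  · have h2 := h.resolve_left hall
    have hno : ¬ ∃ q : ℕ, (∀ i, p i = q) ∧ (∃ i, e i = 1) ∧ (∃ i, e i = -1) ∧
        ((q : ℤ) - 1 ∣ ∑ i, e i) := by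
      rintro ⟨q, hq, -⟩
      exact hall fun i j => by rw [hq i, hq j]
    have hred : Reducible p e := by
      obtain ⟨hk3, h3⟩ := h2
      have hcases : k = 1 ∨ k = 2 ∨ k = 3 := by omega
      rcases hcases with rfl | rfl | rfl
      · exact absurd (fun i j => by rw [Subsingleton.elim i j]) hall
      · refine (two_terms hp).2 fun hh => hall ?_
        intro i j
        have := hh.1
        fin_cases i <;> fin_cases j <;> simp_all
      · refine (three_terms hp fun hh => h3 ⟨rfl, hh⟩).2 fun hh => hall ?_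
        intro i j
        rw [hh.1 i, hh.1 j]
    exact ⟨⟨fun _ => finite_of_red hp hred, fun _ => hred⟩, ⟨fun _ => hno, fun _ => hred⟩⟩

theorem modEq4_iff (a b c d : ℕ) :
    3 ^ a = 2 ^ b + 2 ^ c + 2 ^ d ↔ 3 ^ a ≡ 2 ^ b + 2 ^ c + 2 ^ d [MOD 679466880] := by
  constructor
  · intro h; rw [h]
  · intro h
    have h1 := Nat.modEq_iff_dvd.1 h.symm
    have h2 := t_H a b c d (by
      have e1 : (3 : ℤ) ^ a - 2 ^ b - 2 ^ c - 2 ^ d
          = ((3 ^ a : ℕ) : ℤ) - ((2 ^ b + 2 ^ c + 2 ^ d : ℕ) : ℤ) := by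
        push_cast; ring
      rw [e1]; exact_mod_cast h1)
    exact_mod_cast h2

theorem four_terms : Reducible ![3, 2, 2, 2] ![1, -1, -1, -1] := by
  refine ⟨679466880, by norm_num, fun x => ?_⟩
  have hs : expSum ![3, 2, 2, 2] ![1, -1, -1, -1] x
      = (3 : ℤ) ^ x 0 - 2 ^ x 1 - 2 ^ x 2 - 2 ^ x 3 := by
    unfold expSum
    rw [Fin.sum_univ_four]
    simp
    ring
  rw [hs]
  constructor
  · intro h; rw [h]; exact dvd_zero _
  · intro h
    have := t_H (x 0) (x 1) (x 2) (x 3) (by exact_mod_cast h)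
    rw [this]; ring

end Main_aux

end Pool.Agent.H899EX
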