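import Pool.Agent.H899EX.Defs

set_option autoImplicit false

namespace Pool.Agent.H899EX

namespace A_aux

theorem pow_mod (q n : ℕ) (hq : 2 ≤ q) (a : ℕ) : q ^ (a % n) ≡ q ^ a [MOD (q ^ n - 1)] := by
  have h1 : q ^ n ≡ 1 [MOD (q ^ n - 1)] := by
    have h0 : 1 ≤ q ^ n := Nat.one_le_pow _ _ (by omega)
    have h2 : (q ^ n - 1) + 1 ≡ 0 + 1 [MOD (q ^ n - 1)] :=
      Nat.ModEq.add_right 1 (by simp [Nat.ModEq])
    rwa [Nat.sub_add_cancel h0, zero_add] at h2
  have h3 : q ^ a = (q ^ n) ^ (a / n) * q ^ (a % n) := by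
    rw [← pow_mul, ← pow_add, Nat.div_add_mod]
  rw [h3]
  have h4 := (h1.pow (a / n)).mul_right (q ^ (a % n))
  rw [one_pow, one_mul] at h4
  exact h4.symm

theorem shift (k n g j x : ℕ) (hn : n = (k + 1) * g) (hg : 1 ≤ g) (hj : j < k + 1)
    (hx : (x % n) / g ≠ j) : (x + (n - (j + 1) * g)) % n < n - g := by
  have hj1 : (j + 1) * g ≤ n := by
    rw [hn]; exact Nat.mul_le_mul_right g (by omega)
  have hn0 : 0 < n := by
    have : g ≤ (j + 1) * g := Nat.le_mul_of_pos_left g (by omega)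
    omega
  have hxn : x % n < n := Nat.mod_lt _ hn0
  have he : (x + (n - (j + 1) * g)) % n = (x % n + (n - (j + 1) * g)) % n := by
    rw [Nat.mod_add_mod]
  rw [he]
  have hjg : (j + 1) * g = j * g + g := by ring
  rcases Nat.lt_or_gt_of_ne hx with h | h
  · have h1 : x % n < j * g := (Nat.div_lt_iff_lt_mul hg).mp h
    rw [Nat.mod_eq_of_lt (by omega)]
    omega
  · have h1 : (j + 1) * g ≤ x % n := (Nat.le_div_iff_mul_le hg).mp h
    have h2 : x % n + (n - (j + 1) * g) = (x % n - (j + 1) * g) + n := by omega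
    rw [h2, Nat.add_mod_right, Nat.mod_eq_of_lt (by omega)]
    omega

end A_aux

-- BEGIN TARGET
theorem t_A : S_A := by
  intro q k hq hk
  obtain ⟨n, hn⟩ : ∃ n, n = (k + 1) * k := ⟨_, rfl⟩
  have hkn : k + k ≤ n := by
    rw [hn]
    nlinarith
  have hqn : 1 ≤ q ^ n := Nat.one_le_pow _ _ (by omega)
  have hn1 : q ^ (n - 1) + 1 ≤ q ^ n := by
    have h1 : q ^ (n - 1) < q ^ n := Nat.pow_lt_pow_right (by omega) (by omega)
    omega
  have hpos : 1 ≤ q ^ (n - 1) := Nat.one_le_pow _ _ (by omega)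
  refine ⟨q ^ n - 1, by omega, ?_⟩
  intro x hdvd
  -- the missing residue
  obtain ⟨j, hj, hjx⟩ : ∃ j, j < k + 1 ∧ ∀ i : Fin k, (x i % n) / k ≠ j := by
    by_contra hcon
    push Not at hcon
    have h1 : Finset.range (k + 1) ⊆ Finset.univ.image (fun i : Fin k => (x i % n) / k) := by
      intro j hj
      obtain ⟨i, hi⟩ := hcon j (Finset.mem_range.mp hj)
      exact Finset.mem_image.mpr ⟨i, Finset.mem_univ _, hi⟩
    have h2 := (Finset.card_le_card h1).trans Finset.card_image_le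
    rw [Finset.card_range, Finset.card_univ, Fintype.card_fin] at h2
    omega
  obtain ⟨t, ht⟩ : ∃ t, t = n - (j + 1) * k := ⟨_, rfl⟩
  have hy : ∀ i, (x i + t) % n < n - k := fun i => by
    rw [ht]
    exact A_aux.shift k n k j (x i) hn hk hj (hjx i)
  have hmod : ∑ i, q ^ ((x i + t) % n) ≡ ∑ i, q ^ (x i + t) [MOD (q ^ n - 1)] := by
    apply Nat.ModEq.sum
    intro i _
    exact A_aux.pow_mod q n hq _
  have hsum : ∑ i, q ^ (x i + t) = q ^ t * ∑ i, q ^ x i := by
    rw [Finset.mul_sum]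
    apply Finset.sum_congr rfl
    intro i _
    rw [pow_add, mul_comm]
  have hd : q ^ n - 1 ∣ ∑ i, q ^ ((x i + t) % n) := by
    rw [hmod.dvd_iff dvd_rfl, hsum]
    exact Dvd.dvd.mul_left hdvd _
  have hle : ∑ i, q ^ ((x i + t) % n) ≤ k * q ^ (n - k - 1) := by
    have h1 : ∀ i ∈ (Finset.univ : Finset (Fin k)), q ^ ((x i + t) % n) ≤ q ^ (n - k - 1) := by
      intro i _
      apply Nat.pow_le_pow_right (by omega)
      have := hy i
      omega
    refine (Finset.sum_le_sum h1).trans ?_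
    rw [Finset.sum_const, Finset.card_univ, Fintype.card_fin, smul_eq_mul]
  have hlt : k * q ^ (n - k - 1) < q ^ (n - 1) := by
    have h1 : q ^ (n - 1) = q ^ k * q ^ (n - k - 1) := by
      rw [← pow_add]
      congr 1
      omega
    rw [h1]
    apply Nat.mul_lt_mul_of_pos_right (Nat.lt_pow_self (by omega))
    exact Nat.pow_pos (by omega)
  have hspos : 0 < ∑ i, q ^ ((x i + t) % n) := by
    apply Finset.sum_pos
    · intro i _
      exact Nat.pow_pos (by omega)
    · exact ⟨⟨0, by omega⟩, Finset.mem_univ _⟩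
  have := Nat.le_of_dvd hspos hd
  omega
-- END TARGET

end Pool.Agent.H899EX
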